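import Mathlib
import Pool.Agent.Y772.ND.Stm
import Pool.Agent.H385R2.NTW

set_option autoImplicit false

open Complex MeasureTheory
open scoped ComplexConjugate

namespace Pool.Agent.Y87.ND

open Pool.Agent.Y772.ND

/-- gaps of logarithms -/
lemma log_gap {N m n : ℕ} (hm : m ∈ Finset.Icc 1 N) (hn : n ∈ Finset.Icc 1 N) (hmn : m ≠ n) :
    (1 : ℝ) / N ≤ |Real.log m - Real.log n| := by
  wlog h : m < n generalizing m n
  · rw [abs_sub_comm]
    exact this hn hm (Ne.symm hmn) (lt_of_le_of_ne (not_lt.mp h) (Ne.symm hmn))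
  rw [Finset.mem_Icc] at hm hn
  have hm0 : (0 : ℝ) < m := by exact_mod_cast hm.1
  have hn0 : (0 : ℝ) < n := by exact_mod_cast hn.1
  have h1 := Real.one_sub_inv_le_log_of_pos (div_pos hn0 hm0)
  rw [Real.log_div hn0.ne' hm0.ne', inv_div] at h1
  have h2 : (1 : ℝ) / N ≤ 1 - m / n := by
    have h3 : (m : ℝ) + 1 ≤ n := by exact_mod_cast h
    have h4 : (n : ℝ) ≤ N := by exact_mod_cast hn.2
    have h5 : (1 : ℝ) / N ≤ 1 / n := one_div_le_one_div_of_le hn0 h4
    have h6 : (1 : ℝ) - m / n = (n - m) / n := by field_simp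
    rw [h6]
    refine h5.trans ?_
    exact div_le_div_of_nonneg_right (by linarith) hn0.le
  rw [abs_sub_comm]
  exact (h2.trans h1).trans (le_abs_self _)

/-- oscillating integral -/
lemma osc (X Y δ : ℝ) (hδ : δ ≠ 0) :
    ‖∫ t in X..Y, cexp (I * δ * t)‖ ≤ 2 / |δ| := by
  have hc : I * (δ : ℂ) ≠ 0 := mul_ne_zero I_ne_zero (by exact_mod_cast hδ)
  rw [integral_exp_mul_complex hc, norm_div, norm_mul, norm_I, one_mul, norm_real,
    Real.norm_eq_abs]
  refine div_le_div_of_nonneg_right ?_ (abs_nonneg _)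
  refine (norm_sub_le _ _).trans ?_
  have h1 : ∀ x : ℝ, ‖cexp (I * (δ : ℂ) * x)‖ = 1 := by
    intro x
    have : I * (δ : ℂ) * x = ((δ * x : ℝ) : ℂ) * I := by push_cast; ring
    rw [this, norm_exp_ofReal_mul_I]
  rw [h1, h1]
  norm_num

/-- mean square of a generalised Dirichlet polynomial -/
lemma mean_sq (N : ℕ) (hN : 1 ≤ N) (X Y : ℝ) (hXY : X ≤ Y) (x : ℕ → ℂ) (u : ℝ) :
    ∫ t in X..Y, ‖∑ n ∈ Finset.Icc 1 N, x n * cexp (I * t * (u - Real.log n))‖ ^ 2 ≤
      (Y - X + 2 * (N : ℝ) ^ 2) * ∑ n ∈ Finset.Icc 1 N, ‖x n‖ ^ 2 := by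
  have hN0 : (0 : ℝ) < N := by exact_mod_cast hN
  set S := Finset.Icc 1 N with hS
  have e1 : ∀ t : ℝ, ((‖∑ n ∈ S, x n * cexp (I * t * (u - Real.log n))‖ ^ 2 : ℝ) : ℂ) =
      ∑ m ∈ S, ∑ n ∈ S, (x m * conj (x n)) *
        cexp (I * ((Real.log n - Real.log m : ℝ) : ℂ) * t) := by
    intro t
    rw [ofReal_pow, ← Complex.mul_conj', map_sum, Finset.sum_mul_sum]
    refine Finset.sum_congr rfl fun m _ => Finset.sum_congr rfl fun n _ => ?_
    rw [map_mul, ← Complex.exp_conj]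
    have h1 : (starRingEnd ℂ) (I * (t : ℂ) * ((u : ℂ) - (Real.log n : ℂ))) =
        -(I * (t : ℂ) * ((u : ℂ) - (Real.log n : ℂ))) := by
      rw [map_mul, map_mul, map_sub, conj_I, conj_ofReal, conj_ofReal, conj_ofReal]
      ring
    rw [h1]
    have h2 : cexp (I * ((Real.log n - Real.log m : ℝ) : ℂ) * t) =
        cexp (I * t * (u - Real.log m)) * cexp (-(I * (t : ℂ) * ((u : ℂ) - (Real.log n : ℂ)))) := by
      rw [← Complex.exp_add]
      congr 1
      push_cast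
      ring
    rw [h2]
    ring
  have hint : ∀ m n : ℕ, IntervalIntegrable (fun t : ℝ => (x m * conj (x n)) *
        cexp (I * ((Real.log n - Real.log m : ℝ) : ℂ) * t)) volume X Y := by
    intro m n
    apply Continuous.intervalIntegrable
    fun_prop
  have e2 : ((∫ t in X..Y, ‖∑ n ∈ S, x n * cexp (I * t * (u - Real.log n))‖ ^ 2 : ℝ) : ℂ) =
      ∑ m ∈ S, ∑ n ∈ S, (x m * conj (x n)) *
        ∫ t in X..Y, cexp (I * ((Real.log n - Real.log m : ℝ) : ℂ) * t) := by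
    rw [← intervalIntegral.integral_ofReal]
    simp_rw [e1]
    rw [intervalIntegral.integral_finsetSum (fun m _ => ?_)]
    · refine Finset.sum_congr rfl fun m _ => ?_
      rw [intervalIntegral.integral_finsetSum (fun n _ => hint m n)]
      refine Finset.sum_congr rfl fun n _ => ?_
      rw [intervalIntegral.integral_const_mul]
    · apply Continuous.intervalIntegrable
      fun_prop
  have e3 : ∀ m ∈ S, ∀ n ∈ S,
      ‖∫ t in X..Y, cexp (I * ((Real.log n - Real.log m : ℝ) : ℂ) * t)‖ ≤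
        (if n = m then (Y - X) else 0) + 2 * N := by
    intro m hm n hn
    by_cases h : n = m
    · subst h
      rw [if_pos rfl, sub_self]
      have : ∀ t : ℝ, cexp (I * ((0 : ℝ) : ℂ) * t) = 1 := by
        intro t
        rw [ofReal_zero, mul_zero, zero_mul, Complex.exp_zero]
      simp_rw [this]
      rw [intervalIntegral.integral_const, Complex.real_smul, mul_one, norm_real,
        Real.norm_eq_abs, abs_of_nonneg (by linarith)]
      linarith
    · rw [if_neg h, zero_add]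
      have h1 := log_gap hn hm h
      have h2 : (0 : ℝ) < 1 / N := by positivity
      have h3 : Real.log n - Real.log m ≠ 0 := by
        intro h4
        rw [h4, abs_zero] at h1
        linarith
      refine (osc X Y _ h3).trans ?_
      rw [div_le_iff₀ (lt_of_lt_of_le h2 h1)]
      have h5 : 2 * (N : ℝ) * (1 / N) = 2 := by field_simp
      calc (2 : ℝ) = 2 * (N : ℝ) * (1 / N) := h5.symm
        _ ≤ 2 * N * |Real.log n - Real.log m| := by gcongr
  have e4 : (∑ n ∈ S, ‖x n‖) ^ 2 ≤ N * ∑ n ∈ S, ‖x n‖ ^ 2 := by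
    have h1 := sq_sum_le_card_mul_sum_sq (s := S) (f := fun n => ‖x n‖)
    have h2 : (S.card : ℝ) = N := by rw [hS, Nat.card_Icc]; simp
    rwa [h2] at h1
  have h0 : 0 ≤ ∫ t in X..Y, ‖∑ n ∈ S, x n * cexp (I * t * (u - Real.log n))‖ ^ 2 :=
    intervalIntegral.integral_nonneg hXY fun t _ => by positivity
  calc ∫ t in X..Y, ‖∑ n ∈ S, x n * cexp (I * t * (u - Real.log n))‖ ^ 2
      = ‖((∫ t in X..Y, ‖∑ n ∈ S, x n * cexp (I * t * (u - Real.log n))‖ ^ 2 : ℝ) : ℂ)‖ := by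
        rw [norm_real, Real.norm_eq_abs, abs_of_nonneg h0]
    _ = ‖∑ m ∈ S, ∑ n ∈ S, (x m * conj (x n)) *
        ∫ t in X..Y, cexp (I * ((Real.log n - Real.log m : ℝ) : ℂ) * t)‖ := by rw [e2]
    _ ≤ ∑ m ∈ S, ∑ n ∈ S, (‖x m‖ * ‖x n‖) * ((if n = m then (Y - X) else 0) + 2 * N) := by
        refine (norm_sum_le _ _).trans (Finset.sum_le_sum fun m hm => ?_)
        refine (norm_sum_le _ _).trans (Finset.sum_le_sum fun n hn => ?_)
        rw [norm_mul, norm_mul, RCLike.norm_conj]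
        exact mul_le_mul_of_nonneg_left (e3 m hm n hn) (by positivity)
    _ = (Y - X) * ∑ n ∈ S, ‖x n‖ ^ 2 + 2 * N * (∑ n ∈ S, ‖x n‖) ^ 2 := by
        simp_rw [mul_add, Finset.sum_add_distrib]
        congr 1
        · rw [Finset.mul_sum]
          refine Finset.sum_congr rfl fun m hm => ?_
          simp_rw [mul_ite, mul_zero]
          rw [Finset.sum_ite_eq' S m, if_pos hm]
          ring
        · rw [sq, Finset.sum_mul_sum, Finset.mul_sum]
          refine Finset.sum_congr rfl fun m _ => ?_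
          rw [Finset.mul_sum]
          refine Finset.sum_congr rfl fun n _ => ?_
          ring
    _ ≤ (Y - X) * ∑ n ∈ S, ‖x n‖ ^ 2 + 2 * N * (N * ∑ n ∈ S, ‖x n‖ ^ 2) := by gcongr
    _ = (Y - X + 2 * (N : ℝ) ^ 2) * ∑ n ∈ S, ‖x n‖ ^ 2 := by ring

theorem t_MSQ : P_MSQ := by
  obtain ⟨C, hC, h⟩ := H385.lam_sq_crude
  refine ⟨2 * C, by positivity, ?_⟩
  intro D b hD hb N X Y u hN hXY hu
  obtain ⟨hs, hle⟩ := h u hu
  set x : ℕ → ℂ := fun n => b n * (Real.sqrt n : ℂ)⁻¹ * Real.exp (-(u - Real.log n) ^ 2 / 4) with hx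
  have e1 : ∀ t : ℝ, ∑ n ∈ Finset.Icc 1 N, b n * (Real.sqrt n : ℂ)⁻¹ *
      cexp (I * t * (u - Real.log n)) * Real.exp (-(u - Real.log n) ^ 2 / 4) =
      ∑ n ∈ Finset.Icc 1 N, x n * cexp (I * t * (u - Real.log n)) := by
    intro t
    refine Finset.sum_congr rfl fun n _ => ?_
    rw [hx]
    ring
  simp_rw [e1]
  have h1 := mean_sq N hN X Y hXY x u
  have hx2 : ∀ n, ‖x n‖ ^ 2 ≤ D ^ 2 * ((ArithmeticFunction.vonMangoldt n) ^ 2 / n *
      Real.exp (-(u - Real.log n) ^ 2 / 2)) := by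
    intro n
    rw [hx]
    simp only
    rw [norm_mul, norm_mul, norm_inv, norm_real, norm_real, Real.norm_eq_abs, Real.norm_eq_abs,
      abs_of_nonneg (Real.sqrt_nonneg _), abs_of_nonneg (Real.exp_pos _).le, mul_pow, mul_pow,
      inv_pow, Real.sq_sqrt (Nat.cast_nonneg n), ← Real.exp_nat_mul]
    have e2 : ((2 : ℕ) : ℝ) * (-(u - Real.log n) ^ 2 / 4) = -(u - Real.log n) ^ 2 / 2 := by
      push_cast; ring
    rw [e2]
    have e3 : ‖b n‖ ^ 2 ≤ D ^ 2 * (ArithmeticFunction.vonMangoldt n) ^ 2 := by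
      rw [← mul_pow]
      exact pow_le_pow_left₀ (norm_nonneg _) (hb n) 2
    calc ‖b n‖ ^ 2 * (n : ℝ)⁻¹ * Real.exp (-(u - Real.log n) ^ 2 / 2)
        ≤ D ^ 2 * (ArithmeticFunction.vonMangoldt n) ^ 2 * (n : ℝ)⁻¹ *
          Real.exp (-(u - Real.log n) ^ 2 / 2) := by gcongr
      _ = _ := by rw [div_eq_mul_inv]; ring
  have hS : ∑ n ∈ Finset.Icc 1 N, ‖x n‖ ^ 2 ≤ D ^ 2 * (C * (u + 1)) := by
    refine (Finset.sum_le_sum fun n _ => hx2 n).trans ?_
    rw [← Finset.mul_sum]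
    refine mul_le_mul_of_nonneg_left ?_ (sq_nonneg D)
    exact (hs.sum_le_tsum _ (fun n _ => by positivity)).trans hle
  have hN1 : (1 : ℝ) ≤ N := by exact_mod_cast hN
  have hN3 : (N : ℝ) ^ 2 ≤ (N : ℝ) ^ 3 := pow_le_pow_right₀ hN1 (by norm_num)
  calc _ ≤ (Y - X + 2 * (N : ℝ) ^ 2) * ∑ n ∈ Finset.Icc 1 N, ‖x n‖ ^ 2 := h1
    _ ≤ (2 * (Y - X + (N : ℝ) ^ 3)) * (D ^ 2 * (C * (u + 1))) := by
        refine mul_le_mul ?_ hS (Finset.sum_nonneg fun n _ => by positivity) ?_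
        · nlinarith
        · have : (0 : ℝ) ≤ (N : ℝ) ^ 3 := by positivity
          linarith
    _ = _ := by ring

end Pool.Agent.Y87.ND
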